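import Pool.Agent.Lib.MP_12bd27_co.Final

set_option autoImplicit false

/-! There is a patch of regular triangles and hexagons (nine tiles) that extends to a tiling of
the plane but is contained in no convex patch.  The patch consists of three horizontal rows
`hexagon + two triangles`, stacked as mirror images; both inner horizontal lines carry interior
vertices of type `3².6²`.  In a convex patch such a line is forced to continue as a `3².6²` line up
to the boundary, where it ends in a corner of angle 120° whose cone contains the whole patch; two
different parallel lines cannot both end like this. -/

namespace Pool.Agent.Results.MP_12bd27_co.PatchNotConvex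

open Pool.Agent.Lib.MP_12bd27_co

/-- Some patch extends to a tiling of the plane but is contained in no convex patch. -/
theorem result : ∃ A : Set (Set ℂ), IsPatch A ∧ (∃ T : Set (Set ℂ), IsTiling T ∧ A ⊆ T) ∧
    ¬ ∃ B : Set (Set ℂ), IsPatch B ∧ Convex ℝ (⋃₀ B) ∧ A ⊆ B :=
  main

end Pool.Agent.Results.MP_12bd27_co.PatchNotConvex
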